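import Mathlib
import Pool.Agent.TH841.AL.Stm

/-!
A p-adic point of the covering gives primitive solutions modulo the powers of `p`.
-/

set_option autoImplicit false

namespace Pool.Agent.Q323.PA

open Pool.Agent.TH841.AL

theorem psc (p : ℕ) [hp : Fact p.Prime] (A B b d : ℤ) (k : ℕ)
    (h : Cov ℚ_[p] A B b d) : ModSol A B b d (p ^ k) := by
  obtain ⟨M, e, x, y, hne, h1, h2⟩ := h
  have hp0 : (p : ℚ_[p]) ≠ 0 := by exact_mod_cast hp.out.ne_zero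
  -- the maximal norm
  obtain ⟨z, hz0, hzM, hze, hzx, hzy, hz⟩ : ∃ z : ℚ_[p], z ≠ 0 ∧ ‖M‖ ≤ ‖z‖ ∧ ‖e‖ ≤ ‖z‖ ∧
      ‖x‖ ≤ ‖z‖ ∧ ‖y‖ ≤ ‖z‖ ∧ (z = M ∨ z = e ∨ z = x ∨ z = y) := by
    obtain ⟨z, hz, hmax⟩ := Set.exists_max_image ({M, e, x, y} : Set ℚ_[p]) (fun w => ‖w‖)
      (by simp) ⟨M, by simp⟩
    have a1 := hmax M (by simp)
    have a2 := hmax e (by simp)
    refine ⟨z, ?_, a1, a2, hmax x (by simp), hmax y (by simp), by simpa using hz⟩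
    rintro rfl
    rw [norm_zero] at a1 a2
    rcases hne with h | h
    · exact h (norm_le_zero_iff.1 a1)
    · exact h (norm_le_zero_iff.1 a2)
  have hzn : 0 < ‖z‖ := norm_pos_iff.2 hz0
  have hdiv : ∀ w : ℚ_[p], ‖w‖ ≤ ‖z‖ → ‖w / z‖ ≤ 1 := by
    intro w hw
    rw [norm_div]
    exact (div_le_one hzn).2 hw
  let f : ∀ w : ℚ_[p], ‖w‖ ≤ ‖z‖ → ℤ_[p] := fun w hw => ⟨w / z, hdiv w hw⟩
  set M' := f M hzM with hM'
  set e' := f e hze with he'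
  set x' := f x hzx with hx'
  set y' := f y hzy with hy'
  have k1 : (b : ℤ_[p]) * M' ^ 2 - A * e' ^ 2 - d * x' ^ 2 = 0 := by
    apply Subtype.ext
    push_cast
    show (b : ℚ_[p]) * (M / z) ^ 2 - A * (e / z) ^ 2 - d * (x / z) ^ 2 = 0
    field_simp
    linear_combination h1
  have k2 : (b : ℤ_[p]) * M' ^ 2 - B * e' ^ 2 - b * d * y' ^ 2 = 0 := by
    apply Subtype.ext
    push_cast
    show (b : ℚ_[p]) * (M / z) ^ 2 - B * (e / z) ^ 2 - b * d * (y / z) ^ 2 = 0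
    field_simp
    linear_combination h2
  have happ : ∀ w : ℤ_[p], ∃ u : ℤ_[p], w = ((w.appr k : ℕ) : ℤ_[p]) + (p : ℤ_[p]) ^ k * u := by
    intro w
    have h3 := PadicInt.appr_spec k w
    rw [Ideal.mem_span_singleton] at h3
    obtain ⟨u, hu⟩ := h3
    exact ⟨u, by linear_combination hu⟩
  obtain ⟨u1, hu1⟩ := happ M'
  obtain ⟨u2, hu2⟩ := happ e'
  obtain ⟨u3, hu3⟩ := happ x'
  obtain ⟨u4, hu4⟩ := happ y'
  have hdvd : ∀ n : ℤ, (∃ u : ℤ_[p], (n : ℤ_[p]) = (p : ℤ_[p]) ^ k * u) →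
      ((p ^ k : ℕ) : ℤ) ∣ n := by
    rintro n ⟨u, hu⟩
    have h3 : ‖(n : ℤ_[p])‖ ≤ (p : ℝ) ^ (-(k : ℤ)) := by
      rw [PadicInt.norm_le_pow_iff_mem_span_pow, Ideal.mem_span_singleton]
      exact ⟨u, hu⟩
    rw [PadicInt.norm_int_le_pow_iff_dvd] at h3
    exact_mod_cast h3
  refine ⟨M'.appr k, e'.appr k, x'.appr k, y'.appr k, PadicInt.appr_lt _ _,
    PadicInt.appr_lt _ _, PadicInt.appr_lt _ _, PadicInt.appr_lt _ _, ?_, ?_, ?_⟩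
  · by_contra hg
    obtain ⟨q, hq, hqd⟩ := Nat.exists_prime_and_dvd hg
    have q1 := hqd.trans (Nat.gcd_dvd_left _ _)
    have q2 := hqd.trans (Nat.gcd_dvd_right _ _)
    have q3 := q2.trans (Nat.gcd_dvd_left _ _)
    have q4 := q2.trans (Nat.gcd_dvd_right _ _)
    have hqp : q = p := (Nat.prime_dvd_prime_iff_eq hq hp.out).1 (hq.dvd_of_dvd_pow q4)
    have hk : k ≠ 0 := by
      rintro rfl
      rw [pow_zero] at q4
      exact hq.one_lt.ne' (Nat.dvd_one.1 q4)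
    subst hqp
    have hall : ∀ w : ℤ_[q], q ∣ w.appr k → (∃ u : ℤ_[q], w = ((w.appr k : ℕ) : ℤ_[q]) +
        (q : ℤ_[q]) ^ k * u) → ‖w‖ < 1 := by
      rintro w ⟨s, hs⟩ ⟨u, hu⟩
      rw [← PadicInt.mem_nonunits, ← IsLocalRing.mem_maximalIdeal,
        PadicInt.maximalIdeal_eq_span_p, Ideal.mem_span_singleton]
      refine ⟨(s : ℤ_[q]) + (q : ℤ_[q]) ^ (k - 1) * u, ?_⟩
      have e1 : (q : ℤ_[q]) ^ k = q * (q : ℤ_[q]) ^ (k - 1) := by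
        rw [← pow_succ', Nat.sub_add_cancel (Nat.pos_of_ne_zero hk)]
      rw [e1, hs] at hu
      push_cast at hu
      linear_combination hu
    have n1 := hall M' (q1.trans (Nat.gcd_dvd_left _ _)) ⟨u1, hu1⟩
    have n2 := hall e' (q1.trans (Nat.gcd_dvd_right _ _)) ⟨u2, hu2⟩
    have n3 := hall x' (q3.trans (Nat.gcd_dvd_left _ _)) ⟨u3, hu3⟩
    have n4 := hall y' (q3.trans (Nat.gcd_dvd_right _ _)) ⟨u4, hu4⟩
    have hone : ∀ (w : ℚ_[q]) (hw : ‖w‖ ≤ ‖z‖), z = w → ‖f w hw‖ = 1 := by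
      rintro w hw rfl
      show ‖(z / z : ℚ_[q])‖ = 1
      rw [div_self hz0, norm_one]
    rcases hz with h' | h' | h' | h'
    · exact absurd (hone M hzM h') n1.ne
    · exact absurd (hone e hze h') n2.ne
    · exact absurd (hone x hzx h') n3.ne
    · exact absurd (hone y hzy h') n4.ne
  · refine hdvd _ ⟨-(b * (2 * (M'.appr k : ℤ_[p]) * u1 + (p : ℤ_[p]) ^ k * u1 ^ 2) -
      A * (2 * (e'.appr k : ℤ_[p]) * u2 + (p : ℤ_[p]) ^ k * u2 ^ 2) -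
      d * (2 * (x'.appr k : ℤ_[p]) * u3 + (p : ℤ_[p]) ^ k * u3 ^ 2)), ?_⟩
    rw [hu1, hu2, hu3] at k1
    push_cast
    linear_combination k1
  · refine hdvd _ ⟨-(b * (2 * (M'.appr k : ℤ_[p]) * u1 + (p : ℤ_[p]) ^ k * u1 ^ 2) -
      B * (2 * (e'.appr k : ℤ_[p]) * u2 + (p : ℤ_[p]) ^ k * u2 ^ 2) -
      b * d * (2 * (y'.appr k : ℤ_[p]) * u4 + (p : ℤ_[p]) ^ k * u4 ^ 2)), ?_⟩
    rw [hu1, hu2, hu4] at k2
    push_cast
    linear_combination k2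

end Pool.Agent.Q323.PA
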