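import Mathlib
import Pool.Agent.Q323.PA.Psc
import Pool.Agent.TH841.AL.Comp
import Pool.Agent.TH841.AL.Rl
import Pool.Agent.TH841.AL.Cp
import Pool.Agent.TH841.FD.Covl
import Pool.Agent.W405.SE.GoodP
import Pool.Agent.W407.SE.Ratp

/-!
# The 2-Selmer group of `y² = x (x - A) (x - B)` by finite checks

`R A B T K`: for all the pairs `(b, d)` outside `T` the covering has no real point or no primitive
solution modulo some prime power `q < K`.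
-/

set_option autoImplicit false

namespace Pool.Agent.Q323.PA

open Finset

open Pool.Agent.TH841.AL

open Pool.Agent.W307.SE (Loc Sel)

theorem cov_of_loc {K : Type} [Field K] [CharZero K] {A B b d : ℤ} (hb : b ≠ 0) (hd : d ≠ 0)
    (h : Loc K A B b d) : Cov K A B b d := by
  obtain ⟨x, y, hy, hxy, ⟨u, hu⟩, ⟨v, hv⟩⟩ := h
  have hb' : (b : K) ≠ 0 := Int.cast_ne_zero.2 hb
  have hd' : (d : K) ≠ 0 := Int.cast_ne_zero.2 hd
  have hy2 : y ^ 2 ≠ 0 := pow_ne_zero 2 hy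
  rw [hxy] at hy2
  have hx : x ≠ 0 := left_ne_zero_of_mul (left_ne_zero_of_mul hy2)
  have hxA : x - A ≠ 0 := right_ne_zero_of_mul (left_ne_zero_of_mul hy2)
  have hu0 : u ≠ 0 := by
    rintro rfl
    rw [mul_zero] at hu
    exact (mul_ne_zero hx hb') hu
  have hv0 : v ≠ 0 := by
    rintro rfl
    rw [mul_zero] at hv
    exact (mul_ne_zero hxA hd') hv
  have e1 : (b : K) * (u / b) ^ 2 = x := by
    field_simp
    linear_combination -hu
  refine ⟨u / b, 1, v / d, y / (u * v), Or.inr one_ne_zero, ?_, ?_⟩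
  · rw [e1]
    field_simp
    linear_combination hv
  · rw [e1]
    field_simp
    have e2 : u ^ 2 = x * b := by rw [hu]; ring
    have e3 : v ^ 2 = (x - A) * d := by rw [hv]; ring
    rw [e2, e3, hxy]
    ring

/-- the prime powers -/
def PP (q : ℕ) : Prop := ¬ q = 0 ∧ ∃ p < q + 1, (2 ≤ p ∧ ∀ k < p + 1, k ∣ p → k = 1 ∨ k = p) ∧
  ∀ r < q + 1, r ∣ q → r = 1 ∨ p ∣ r

lemma pp_of_pow {p k : ℕ} (hp : p.Prime) (hk : k ≠ 0) : PP (p ^ k) := by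
  refine ⟨(pow_pos hp.pos k).ne', p, ?_, ⟨hp.two_le, fun m _ hm => (Nat.dvd_prime hp).1 hm⟩, ?_⟩
  · exact Nat.lt_succ_of_le (Nat.le_self_pow hk p)
  · intro r _ hr
    obtain ⟨i, _, rfl⟩ := (Nat.dvd_prime_pow hp).1 hr
    by_cases hi : i = 0
    · left
      rw [hi, pow_zero]
    · right
      exact dvd_pow_self p hi

lemma pow_of_pp {q : ℕ} (h : PP q) : ∃ p k : ℕ, p.Prime ∧ q = p ^ k := by
  obtain ⟨h0, p, -, ⟨h2, h3⟩, h4⟩ := h
  have hp : p.Prime := by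
    rw [Nat.prime_def]
    refine ⟨h2, fun m hm => h3 m ?_ hm⟩
    exact Nat.lt_succ_of_le (Nat.le_of_dvd (by omega) hm)
  refine ⟨p, _, hp, Nat.eq_prime_pow_of_unique_prime_dvd h0 fun {r} hr hrq => ?_⟩
  rcases h4 r (Nat.lt_succ_of_le (Nat.le_of_dvd (Nat.pos_of_ne_zero h0) hrq)) hrq with h | h
  · exact absurd h hr.ne_one
  · exact ((Nat.prime_dvd_prime_iff_eq hp hr).1 h).symm

/-- one pair -/
def Ob2 (A B b d : ℤ) (K : ℕ) : Prop := ¬ RealSol A B b d ∨ ∃ q < K, PP q ∧ ¬ ModSol A B b d q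

lemma ob2_mono {A B b d : ℤ} {K K' : ℕ} (h : K ≤ K') (hO : Ob2 A B b d K) : Ob2 A B b d K' := by
  rcases hO with h1 | ⟨q, h1, h2⟩
  · exact Or.inl h1
  · exact Or.inr ⟨q, by omega, h2⟩

/-- one pair, or one of the four -/
def Ob3 (A B b d : ℤ) (K : ℕ) (T : ((ℤ × ℤ) × (ℤ × ℤ)) × ((ℤ × ℤ) × (ℤ × ℤ))) : Prop :=
  ((((b, d) = T.1.1 ∨ (b, d) = T.1.2) ∨ (b, d) = T.2.1) ∨ (b, d) = T.2.2) ∨ Ob2 A B b d K

/-- the check -/
def Chk (A B : ℤ) (K : ℕ) (T : ((ℤ × ℤ) × (ℤ × ℤ)) × ((ℤ × ℤ) × (ℤ × ℤ))) : Prop :=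
  ∀ D < (2 * A * B * (A - B)).natAbs + 1, ∀ E < (2 * A * B * (A - B)).natAbs + 1,
    (Squarefree D ∧ Squarefree E) → (Ob3 A B D E K T ∧ Ob3 A B D (-E) K T) ∧
      (Ob3 A B (-D) E K T ∧ Ob3 A B (-D) (-E) K T)

lemma chk_iff {A B : ℤ} {K : ℕ} {T : ((ℤ × ℤ) × (ℤ × ℤ)) × ((ℤ × ℤ) × (ℤ × ℤ))} :
    Chk A B K T ↔ ∀ b d : ℤ, b.natAbs ≤ (2 * A * B * (A - B)).natAbs →
      d.natAbs ≤ (2 * A * B * (A - B)).natAbs → Squarefree b → Squarefree d →
      Ob3 A B b d K T := by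
  constructor
  · intro h b d hb hd hbs hds
    obtain ⟨⟨h1, h2⟩, h3, h4⟩ := h b.natAbs (by omega) d.natAbs (by omega)
      ⟨Int.squarefree_natAbs.2 hbs, Int.squarefree_natAbs.2 hds⟩
    rcases Int.natAbs_eq b with hb' | hb' <;> rcases Int.natAbs_eq d with hd' | hd' <;>
      rw [hb', hd'] <;> assumption
  · rintro h D hD E hE ⟨hDs, hEs⟩
    have s1 : Squarefree (D : ℤ) := Int.squarefree_natCast.2 hDs
    have s2 : Squarefree (E : ℤ) := Int.squarefree_natCast.2 hEs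
    have s3 : Squarefree (-(D : ℤ)) := by
      rw [← Int.squarefree_natAbs, Int.natAbs_neg, Int.natAbs_natCast]; exact hDs
    have s4 : Squarefree (-(E : ℤ)) := by
      rw [← Int.squarefree_natAbs, Int.natAbs_neg, Int.natAbs_natCast]; exact hEs
    refine ⟨⟨h _ _ ?_ ?_ s1 s2, h _ _ ?_ ?_ s1 s4⟩, h _ _ ?_ ?_ s3 s2, h _ _ ?_ ?_ s3 s4⟩ <;>
      (rw [← Int.natAbs_eq_natAbs_iff.2 (Or.inl rfl)] ; omega)

/-- **soundness** -/
theorem sel_le {A B : ℤ} (hA : A ≠ 0) (hB : B ≠ 0) (hAB : A ≠ B) {K : ℕ}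
    {T : ((ℤ × ℤ) × (ℤ × ℤ)) × ((ℤ × ℤ) × (ℤ × ℤ))} (h : Chk A B K T) :
    (Sel A B).Finite ∧ (Sel A B).ncard ≤ 4 := by
  classical
  rw [chk_iff] at h
  have hn : 2 * A * B * (A - B) ≠ 0 :=
    mul_ne_zero (mul_ne_zero (mul_ne_zero two_ne_zero hA) hB) (sub_ne_zero.2 hAB)
  have hsub : Sel A B ⊆ (({T.1.1, T.1.2, T.2.1, T.2.2} : Finset (ℤ × ℤ)) : Set (ℤ × ℤ)) := by
    rintro ⟨b, d⟩ ⟨hb, hd, hR, hp⟩
    simp only at hb hd hR hp
    have hgood : ∀ p : ℕ, p.Prime → ¬ (p : ℤ) ∣ 2 * A * B * (A - B) →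
        ¬ (p : ℤ) ∣ b ∧ ¬ (p : ℤ) ∣ d := by
      intro p hpp hpn
      haveI : Fact p.Prime := ⟨hpp⟩
      exact (Pool.Agent.W405.SE.goodp_of Pool.Agent.W407.SE.ratp) p A B b d hpn hb hd (hp p)
    have hbn : b ∣ 2 * A * B * (A - B) := by
      refine sqf_dvd hb fun p hpp hpb => ?_
      by_contra hcon
      exact (hgood p hpp hcon).1 hpb
    have hdn : d ∣ 2 * A * B * (A - B) := by
      refine sqf_dvd hd fun p hpp hpd => ?_
      by_contra hcon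
      exact (hgood p hpp hcon).2 hpd
    have h1 := h b d (Nat.le_of_dvd (Int.natAbs_pos.2 hn) (Int.natAbs_dvd_natAbs.2 hbn))
      (Nat.le_of_dvd (Int.natAbs_pos.2 hn) (Int.natAbs_dvd_natAbs.2 hdn)) hb hd
    rcases h1 with h1 | h1
    · simp only [coe_insert, coe_singleton, Set.mem_insert_iff, Set.mem_singleton_iff]
      tauto
    · exfalso
      rcases h1 with h2 | ⟨q, -, hq, h2⟩
      · exact h2 ((RLf.rl A B b d hb.ne_zero hd.ne_zero).1 (cov_of_loc hb.ne_zero hd.ne_zero hR))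
      · obtain ⟨p, k, hpp, rfl⟩ := pow_of_pp hq
        haveI : Fact p.Prime := ⟨hpp⟩
        exact h2 (psc p A B b d k (cov_of_loc hb.ne_zero hd.ne_zero (hp p)))
  refine ⟨(Finset.finite_toSet _).subset hsub, ?_⟩
  refine (Set.ncard_le_ncard hsub (Finset.finite_toSet _)).trans ?_
  rw [Set.ncard_coe_finset]
  exact Finset.card_le_four

lemma four (S : Set (ℤ × ℤ)) (hS : S.Finite) (h : S.ncard ≤ 4) :
    ∃ T : ((ℤ × ℤ) × (ℤ × ℤ)) × ((ℤ × ℤ) × (ℤ × ℤ)), ∀ x ∈ S,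
      ((x = T.1.1 ∨ x = T.1.2) ∨ x = T.2.1) ∨ x = T.2.2 := by
  classical
  obtain ⟨l, hl, hlS⟩ : ∃ l : List (ℤ × ℤ), l.length ≤ 4 ∧ ∀ x ∈ S, x ∈ l := by
    refine ⟨hS.toFinset.toList, ?_, fun x hx => ?_⟩
    · rw [Finset.length_toList, ← Set.ncard_eq_toFinset_card S hS]
      exact h
    · rw [Finset.mem_toList, Set.Finite.mem_toFinset]
      exact hx
  refine ⟨((l.getD 0 0, l.getD 1 0), (l.getD 2 0, l.getD 3 0)), fun x hx => ?_⟩
  obtain ⟨i, hi, rfl⟩ := List.getElem_of_mem (hlS x hx)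
  have hi4 : i < 4 := by omega
  have e : ∀ j, j = i → l.getD j 0 = l[i] := by
    rintro j rfl
    rw [List.getD_eq_getElem _ _ hi]
  interval_cases i
  · exact Or.inl (Or.inl (Or.inl (e 0 rfl).symm))
  · exact Or.inl (Or.inl (Or.inr (e 1 rfl).symm))
  · exact Or.inl (Or.inr (e 2 rfl).symm)
  · exact Or.inr (e 3 rfl).symm

/-- **completeness** -/
theorem chk_of {A B : ℤ} (hA : A ≠ 0) (hB : B ≠ 0) (hAB : A ≠ B)
    (hS : (Sel A B).Finite) (h4 : (Sel A B).ncard ≤ 4) : ∃ K T, Chk A B K T := by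
  classical
  obtain ⟨T, hT⟩ := four _ hS h4
  have key : ∀ x : ℤ × ℤ, ∃ K : ℕ, Squarefree x.1 → Squarefree x.2 → Ob3 A B x.1 x.2 K T := by
    rintro ⟨b, d⟩
    simp only
    by_cases hb : Squarefree b
    swap
    · exact ⟨0, fun h' => absurd h' hb⟩
    by_cases hd : Squarefree d
    swap
    · exact ⟨0, fun _ h' => absurd h' hd⟩
    by_cases hmem : (b, d) ∈ Sel A B
    · exact ⟨0, fun _ _ => Or.inl (hT _ hmem)⟩
    by_cases hR : Cov ℝ A B b d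
    swap
    · exact ⟨0, fun _ _ => Or.inr (Or.inl fun h' =>
        hR ((RLf.rl A B b d hb.ne_zero hd.ne_zero).2 h'))⟩
    obtain ⟨p, hp, hno⟩ : ∃ (p : ℕ) (_ : Fact p.Prime), ¬ Cov ℚ_[p] A B b d := by
      by_contra hcon
      push Not at hcon
      apply hmem
      have hc := Pool.Agent.TH841.FD.COVLf.covl A B b d hA hB hAB hb.ne_zero hd.ne_zero
      exact ⟨hb, hd, hc.1 hR, fun p hp => hc.2 p (hcon p hp)⟩
    obtain ⟨k, hk⟩ := CPf.cp p A B b d hb.ne_zero hd.ne_zero hno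
    refine ⟨p ^ k + 1, fun _ _ => Or.inr (Or.inr ⟨p ^ k, Nat.lt_succ_self _, ?_, hk⟩)⟩
    apply pp_of_pow hp.out
    rintro rfl
    apply hk
    refine ⟨0, 0, 0, 0, by simp, by simp, by simp, by simp, by simp, ?_, ?_⟩
    · simp
    · simp
  choose m hm using key
  set n := (2 * A * B * (A - B)).natAbs with hn
  set S : Finset (ℤ × ℤ) := (Icc (-(n : ℤ)) n) ×ˢ (Icc (-(n : ℤ)) n) with hSd
  refine ⟨∑ x ∈ S, m x, T, chk_iff.2 fun b d hb hd hbs hds => ?_⟩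
  have hmem : (b, d) ∈ S := by
    rw [hSd, mem_product, mem_Icc, mem_Icc]
    refine ⟨⟨?_, ?_⟩, ?_, ?_⟩ <;> omega
  rcases hm (b, d) hbs hds with h1 | h1
  · exact Or.inl h1
  · exact Or.inr (ob2_mono (Finset.single_le_sum (fun x _ => Nat.zero_le (m x)) hmem) h1)

end Pool.Agent.Q323.PA
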