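import Mathlib
import Pool.Agent.Q323.PA.Alg
import Pool.Agent.TH841.AL.Fin

/-!
# The check of the 2-Selmer group is computable
-/

set_option autoImplicit false

namespace Pool.Agent.Q323.PA

open Finset

open Pool.Agent.TH841.AL

open Pool.Agent.Helper446 Pool.Agent.W960.GA

attribute [local fun_prop] ciadd cisub cimul cineg cicast citoNat cinatAbs cmod

section

variable {α : Type} [Primcodable α]

theorem cp_prime {p : α → ℕ} (hp : Computable p) : ComputablePred fun a =>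
    2 ≤ p a ∧ ∀ k < p a + 1, k ∣ p a → k = 1 ∨ k = p a := by
  refine cp_and (RE.cp_le (by fun_prop) hp) ?_
  refine cp_all_lt (p := fun a k => k ∣ p a → k = 1 ∨ k = p a) ?_ (by fun_prop)
  exact cp_imp (cp_dvd (by fun_prop) (by fun_prop)) (cp_or (RE.cp_eq (by fun_prop) (by fun_prop))
    (RE.cp_eq (by fun_prop) (by fun_prop)))

theorem cp_chain {p q : α → ℕ} (hp : Computable p) (hq : Computable q) : ComputablePred fun a =>
    ∀ r < q a + 1, r ∣ q a → r = 1 ∨ p a ∣ r := by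
  refine cp_all_lt (p := fun a r => r ∣ q a → r = 1 ∨ p a ∣ r) ?_ (by fun_prop)
  exact cp_imp (cp_dvd (by fun_prop) (by fun_prop)) (cp_or (RE.cp_eq (by fun_prop) (by fun_prop))
    (cp_dvd (by fun_prop) (by fun_prop)))

theorem cp_pp {q : α → ℕ} (hq : Computable q) : ComputablePred fun a => PP (q a) := by
  unfold PP
  refine cp_and (cp_not (RE.cp_eq hq (by fun_prop))) ?_
  refine cp_ex_lt (p := fun a p => (2 ≤ p ∧ ∀ k < p + 1, k ∣ p → k = 1 ∨ k = p) ∧
    ∀ r < q a + 1, r ∣ q a → r = 1 ∨ p ∣ r) ?_ (by fun_prop)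
  exact cp_and (cp_prime (by fun_prop)) (cp_chain (by fun_prop) (by fun_prop))

theorem cp_ob2 {A B b d : α → ℤ} {K : α → ℕ} (hA : Computable A) (hB : Computable B)
    (hb : Computable b) (hd : Computable d) (hK : Computable K) :
    ComputablePred fun a => Ob2 (A a) (B a) (b a) (d a) (K a) := by
  unfold Ob2
  refine cp_or (cp_not (cp_realSol hA hB hb hd)) ?_
  refine cp_ex_lt (p := fun a q => PP q ∧ ¬ ModSol (A a) (B a) (b a) (d a) q) ?_ hK
  refine cp_and (cp_pp (by fun_prop)) (cp_not ?_)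
  apply cp_modSol <;> fun_prop

theorem cp_ob3 {A B b d : α → ℤ} {K : α → ℕ}
    {T : α → ((ℤ × ℤ) × (ℤ × ℤ)) × ((ℤ × ℤ) × (ℤ × ℤ))} (hA : Computable A) (hB : Computable B)
    (hb : Computable b) (hd : Computable d) (hK : Computable K) (hT : Computable T) :
    ComputablePred fun a => Ob3 (A a) (B a) (b a) (d a) (K a) (T a) := by
  unfold Ob3
  refine cp_or (cp_or (cp_or (cp_or ?_ ?_) ?_) ?_) (cp_ob2 hA hB hb hd hK) <;>
    exact RE.cp_eq (by fun_prop) (by fun_prop)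

theorem cp_ob4 {A B : α → ℤ} {D E K : α → ℕ}
    {T : α → ((ℤ × ℤ) × (ℤ × ℤ)) × ((ℤ × ℤ) × (ℤ × ℤ))} (hA : Computable A) (hB : Computable B)
    (hD : Computable D) (hE : Computable E) (hK : Computable K) (hT : Computable T) :
    ComputablePred fun a => (Squarefree (D a) ∧ Squarefree (E a)) →
      (Ob3 (A a) (B a) (D a) (E a) (K a) (T a) ∧
        Ob3 (A a) (B a) (D a) (-(E a : ℤ)) (K a) (T a)) ∧
      (Ob3 (A a) (B a) (-(D a : ℤ)) (E a) (K a) (T a) ∧
        Ob3 (A a) (B a) (-(D a : ℤ)) (-(E a : ℤ)) (K a) (T a)) := by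
  refine cp_imp (cp_and (cp_sqf hD) (cp_sqf hE)) (cp_and (cp_and ?_ ?_) (cp_and ?_ ?_)) <;>
    (apply cp_ob3 <;> fun_prop)

theorem cp_chk1 {A B : α → ℤ} {D K N : α → ℕ}
    {T : α → ((ℤ × ℤ) × (ℤ × ℤ)) × ((ℤ × ℤ) × (ℤ × ℤ))} (hA : Computable A) (hB : Computable B)
    (hD : Computable D) (hN : Computable N) (hK : Computable K) (hT : Computable T) :
    ComputablePred fun a => ∀ E < N a, (Squarefree (D a) ∧ Squarefree E) →
      (Ob3 (A a) (B a) (D a) E (K a) (T a) ∧ Ob3 (A a) (B a) (D a) (-(E : ℤ)) (K a) (T a)) ∧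
      (Ob3 (A a) (B a) (-(D a : ℤ)) E (K a) (T a) ∧
        Ob3 (A a) (B a) (-(D a : ℤ)) (-(E : ℤ)) (K a) (T a)) := by
  refine cp_all_lt (p := fun a E => (Squarefree (D a) ∧ Squarefree E) →
      (Ob3 (A a) (B a) (D a) E (K a) (T a) ∧ Ob3 (A a) (B a) (D a) (-(E : ℤ)) (K a) (T a)) ∧
      (Ob3 (A a) (B a) (-(D a : ℤ)) E (K a) (T a) ∧
        Ob3 (A a) (B a) (-(D a : ℤ)) (-(E : ℤ)) (K a) (T a))) ?_ hN
  apply cp_ob4 <;> fun_prop

theorem cp_chk {A B : α → ℤ} {K : α → ℕ}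
    {T : α → ((ℤ × ℤ) × (ℤ × ℤ)) × ((ℤ × ℤ) × (ℤ × ℤ))} (hA : Computable A) (hB : Computable B)
    (hK : Computable K) (hT : Computable T) :
    ComputablePred fun a => Chk (A a) (B a) (K a) (T a) := by
  unfold Chk
  refine cp_all_lt (p := fun a D => ∀ E < (2 * A a * B a * (A a - B a)).natAbs + 1,
    (Squarefree D ∧ Squarefree E) →
      (Ob3 (A a) (B a) D E (K a) (T a) ∧ Ob3 (A a) (B a) D (-(E : ℤ)) (K a) (T a)) ∧
      (Ob3 (A a) (B a) (-(D : ℤ)) E (K a) (T a) ∧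
        Ob3 (A a) (B a) (-(D : ℤ)) (-(E : ℤ)) (K a) (T a))) ?_ (by fun_prop)
  apply cp_chk1 <;> fun_prop

end

end Pool.Agent.Q323.PA
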