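import Mathlib
import Pool.Agent.Q323.PA.Cmp
import Pool.Agent.W597.SE.SELC
import Pool.Agent.Y212.RZ.Selc2
import Pool.Agent.Y667.RZ.Sha

/-!
# Curves with a small 2-Selmer group have finitely many rational points; the algorithm
-/

set_option autoImplicit false

namespace Pool.Agent.Q323.PA

open Finset

open Pool.Agent.TH841.AL

open Pool.Agent.W307.RT (Sh)

open Pool.Agent.W307.SE (Sel SelR)

open Pool.Agent.Helper446 Pool.Agent.W960.GA

open Pool.Agent.H437R2.Man.MW (crv pt_fg)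

lemma fin_pt {G : Type} [AddCommGroup G] (hG : AddGroup.FG G) (h : Module.finrank ℤ G = 0) :
    Finite G := by
  have : Module.Finite ℤ G := Module.Finite.iff_addGroup_fg.mpr hG
  exact Module.finite_of_fg_torsion G (Module.finrank_eq_zero_iff_isTorsion.1 h)

lemma eq_sh {a b : ℤ} {x y : ℚ} : (Sh a b).toAffine.Equation x y ↔ y ^ 2 = x ^ 3 + a * x + b := by
  rw [WeierstrassCurve.Affine.equation_iff]
  show y ^ 2 + 0 * x * y + 0 * y = x ^ 3 + 0 * x ^ 2 + (a : ℚ) * x + b ↔ _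
  constructor
  · intro h
    linear_combination h
  · intro h
    linear_combination h

lemma ns_sh {a b : ℤ} (hD : 4 * a ^ 3 + 27 * b ^ 2 ≠ 0) {x y : ℚ}
    (h : y ^ 2 = x ^ 3 + a * x + b) : (Sh a b).toAffine.Nonsingular x y := by
  rw [WeierstrassCurve.Affine.nonsingular_iff']
  refine ⟨eq_sh.2 h, ?_⟩
  show (0 : ℚ) * y - (3 * x ^ 2 + 2 * 0 * x + (a : ℚ)) ≠ 0 ∨ 2 * y + 0 * x + 0 ≠ 0
  by_contra hcon
  push Not at hcon
  obtain ⟨h1, h2⟩ := hcon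
  have hy : y = 0 := by linarith
  have ha : (a : ℚ) = -3 * x ^ 2 := by linear_combination -h1
  have hb : (b : ℚ) = 2 * x ^ 3 := by
    rw [hy, ha] at h
    linear_combination -h
  apply hD
  have : (4 * (a : ℚ) ^ 3 + 27 * (b : ℚ) ^ 2) = 0 := by
    rw [ha, hb]
    ring
  exact_mod_cast this

/-- **a small 2-Selmer group** -/
theorem fin_sh {a b e1 e2 e3 : ℤ} (hD : 4 * a ^ 3 + 27 * b ^ 2 ≠ 0)
    (h : ∀ x : ℤ, x ^ 3 + a * x + b = (x - e1) * (x - e2) * (x - e3))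
    {M N : ℤ} {q : ℚ} (hq : q ≠ 0) (hM : ((e2 - e1 : ℤ) : ℚ) = M * q ^ 2)
    (hN : ((e3 - e1 : ℤ) : ℚ) = N * q ^ 2) (hS : (Sel M N).Finite) (h4 : (Sel M N).ncard ≤ 4) :
    {p : ℚ × ℚ | p.2 ^ 2 = p.1 ^ 3 + a * p.1 + b}.Finite := by
  classical
  obtain ⟨d12, d13, d23⟩ := Pool.Agent.W402.FK.dist a b e1 e2 e3 hD h
  obtain ⟨hS1, hS2⟩ := Pool.Agent.W597.SE.selc a b e1 e2 e3 M N q hD h hq hM hN hS
  obtain ⟨hG1, hG2⟩ := Pool.Agent.TH841.SH.selG_le hD h hS1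
  have hr : ∀ e : ℤ, (e - e1) * (e - e2) * (e - e3) = 0 →
      (0 : ℚ) ^ 2 = (e : ℚ) ^ 3 + a * e + b := by
    intro e he
    have h1 := h e
    rw [he] at h1
    have h2 := congrArg (fun z : ℤ => (z : ℚ)) h1
    push_cast at h2
    linear_combination -h2
  have q1 : (0 : ℚ) ^ 2 = (e1 : ℚ) ^ 3 + a * e1 + b := hr e1 (by ring)
  have q2 : (0 : ℚ) ^ 2 = (e2 : ℚ) ^ 3 + a * e2 + b := hr e2 (by ring)
  have q3 : (0 : ℚ) ^ 2 = (e3 : ℚ) ^ 3 + a * e3 + b := hr e3 (by ring)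
  let T1 : (Sh a b).toAffine.Point := WeierstrassCurve.Affine.Point.some (e1 : ℚ) 0 (ns_sh hD q1)
  let T2 : (Sh a b).toAffine.Point := WeierstrassCurve.Affine.Point.some (e2 : ℚ) 0 (ns_sh hD q2)
  let T3 : (Sh a b).toAffine.Point := WeierstrassCurve.Affine.Point.some (e3 : ℚ) 0 (ns_sh hD q3)
  have hT : ∀ (e : ℚ) (he : (Sh a b).toAffine.Nonsingular e 0),
      (WeierstrassCurve.Affine.Point.some e 0 he : (Sh a b).toAffine.Point) +
        WeierstrassCurve.Affine.Point.some e 0 he = 0 := by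
    intro e he
    refine WeierstrassCurve.Affine.Point.add_self_of_Y_eq ?_
    show (0 : ℚ) = -0 - 0 * e - 0
    ring
  have hinj : ∀ (e e' : ℚ) (he : (Sh a b).toAffine.Nonsingular e 0)
      (he' : (Sh a b).toAffine.Nonsingular e' 0), e ≠ e' →
      (WeierstrassCurve.Affine.Point.some e 0 he : (Sh a b).toAffine.Point) ≠
        WeierstrassCurve.Affine.Point.some e' 0 he' := by
    intro e e' he he' hne heq
    rw [WeierstrassCurve.Affine.Point.some.injEq] at heq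
    exact hne heq.1
  have hF : ({0, T1, T2, T3} : Finset (Sh a b).toAffine.Point).card = 4 := by
    have n1 : T1 ≠ T2 := hinj _ _ _ _ (by exact_mod_cast d12)
    have n2 : T1 ≠ T3 := hinj _ _ _ _ (by exact_mod_cast d13)
    have n3 : T2 ≠ T3 := hinj _ _ _ _ (by exact_mod_cast d23)
    have z : ∀ (e : ℚ) (he : (Sh a b).toAffine.Nonsingular e 0),
      (0 : (Sh a b).toAffine.Point) ≠ WeierstrassCurve.Affine.Point.some e 0 he := by
      intro e he heq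
      exact WeierstrassCurve.Affine.Point.some_ne_zero he heq.symm
    rw [card_insert_of_notMem, card_insert_of_notMem, card_pair n3]
    · simp only [mem_insert, mem_singleton, not_or]
      exact ⟨n1, n2⟩
    · simp only [mem_insert, mem_singleton, not_or]
      exact ⟨z _ _, z _ _, z _ _⟩
  obtain ⟨m1, m2⟩ := Pool.Agent.Y667.SHA.main4 (Sh a b) e1 e2 e3
    (Pool.Agent.TH841.SH.isR_Sh h) d12 d13 d23 hG1 {0, T1, T2, T3} hF.ge (by
      intro g hg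
      simp only [mem_insert, mem_singleton] at hg
      rcases hg with rfl | rfl | rfl | rfl
      · exact add_zero 0
      · exact hT _ _
      · exact hT _ _
      · exact hT _ _)
  have hpos : 0 < Nat.card {x : Pool.Agent.W262.SH.Sha (Sh a b) // x + x = 0} := by
    have : Nonempty {x : Pool.Agent.W262.SH.Sha (Sh a b) // x + x = 0} := ⟨⟨0, add_zero 0⟩⟩
    exact Nat.card_pos
  have h5 : 2 ^ (Module.finrank ℤ (Sh a b).toAffine.Point + 2) ≤ 2 ^ 2 :=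
    (Nat.le_mul_of_pos_right _ hpos).trans (m2.trans (hG2.trans (hS2.trans h4)))
  have h6 := (Nat.pow_le_pow_iff_right (by norm_num : 1 < 2)).1 h5
  have h7 : Module.finrank ℤ (Sh a b).toAffine.Point = 0 := by omega
  have hW : Sh a b = crv (-(e1 : ℚ)) (-(e2 : ℚ)) (-(e3 : ℚ)) := by
    have h' := Pool.Agent.TH841.SH.isR_Sh h
    apply WeierstrassCurve.ext
    · rw [h'.h1]
      rfl
    · rw [h'.h2]
      show _ = -(e1 : ℚ) + -(e2 : ℚ) + -(e3 : ℚ)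
      ring
    · rw [h'.h3]
      rfl
    · rw [h'.h4]
      show _ = -(e1 : ℚ) * -(e2 : ℚ) + -(e1 : ℚ) * -(e3 : ℚ) + -(e2 : ℚ) * -(e3 : ℚ)
      ring
    · rw [h'.h6]
      show _ = -(e1 : ℚ) * -(e2 : ℚ) * -(e3 : ℚ)
      ring
  have c12 : -(e1 : ℚ) ≠ -(e2 : ℚ) := fun h' => d12 (by exact_mod_cast neg_injective h')
  have c13 : -(e1 : ℚ) ≠ -(e3 : ℚ) := fun h' => d13 (by exact_mod_cast neg_injective h')
  have c23 : -(e2 : ℚ) ≠ -(e3 : ℚ) := fun h' => d23 (by exact_mod_cast neg_injective h')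
  have hfg : AddGroup.FG (Sh a b).toAffine.Point := by
    rw [hW]
    exact pt_fg c12 c13 c23
  have hfin := fin_pt hfg h7
  have : Finite {p : ℚ × ℚ | p.2 ^ 2 = p.1 ^ 3 + a * p.1 + b} := by
    refine Finite.of_injective (fun p : {p : ℚ × ℚ | p.2 ^ 2 = p.1 ^ 3 + a * p.1 + b} =>
      (WeierstrassCurve.Affine.Point.some p.1.1 p.1.2 (ns_sh hD p.2) :
        (Sh a b).toAffine.Point)) ?_
    intro p p' hpp
    simp only [WeierstrassCurve.Affine.Point.some.injEq] at hpp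
    exact Subtype.ext (Prod.ext hpp.1 hpp.2)
  exact Set.toFinite _

/-- the curve `y² = x (x - A) (x - B)` -/
theorem fin_ab {A B : ℤ} (hA : A ≠ 0) (hB : B ≠ 0) (hAB : A ≠ B) (hS : (Sel A B).Finite)
    (h4 : (Sel A B).ncard ≤ 4) :
    {p : ℚ × ℚ | p.2 ^ 2 = p.1 * (p.1 - A) * (p.1 - B)}.Finite := by
  set e1 : ℤ := -3 * (A + B) with he1
  set e2 : ℤ := 6 * A - 3 * B with he2
  set e3 : ℤ := 6 * B - 3 * A with he3
  have h : ∀ x : ℤ, x ^ 3 + (e1 * e2 + e1 * e3 + e2 * e3) * x + (-(e1 * e2 * e3)) =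
      (x - e1) * (x - e2) * (x - e3) := by
    intro x
    rw [he1, he2, he3]
    ring
  have hD : 4 * (e1 * e2 + e1 * e3 + e2 * e3) ^ 3 + 27 * (-(e1 * e2 * e3)) ^ 2 ≠ 0 := by
    have : 4 * (e1 * e2 + e1 * e3 + e2 * e3) ^ 3 + 27 * (-(e1 * e2 * e3)) ^ 2 =
        -(729 * (A * B * (A - B))) ^ 2 := by
      rw [he1, he2, he3]
      ring
    rw [this]
    exact neg_ne_zero.2 (pow_ne_zero 2 (mul_ne_zero (by norm_num)
      (mul_ne_zero (mul_ne_zero hA hB) (sub_ne_zero.2 hAB))))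
  have h1 := fin_sh (q := 3) hD h (by norm_num) (M := A) (N := B) (by
    rw [he1, he2]; push_cast; ring) (by rw [he1, he3]; push_cast; ring) hS h4
  refine Set.Finite.of_injOn (f := fun p : ℚ × ℚ => (9 * p.1 - 3 * (A + B), 27 * p.2))
    (t := {p : ℚ × ℚ | p.2 ^ 2 = p.1 ^ 3 + ((e1 * e2 + e1 * e3 + e2 * e3 : ℤ) : ℚ) * p.1 +
      ((-(e1 * e2 * e3) : ℤ) : ℚ)}) ?_ ?_ h1
  · rintro ⟨x, y⟩ hxy
    simp only [Set.mem_setOf_eq] at hxy ⊢
    rw [he1, he2, he3]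
    push_cast
    linear_combination 729 * hxy
  · rintro ⟨x, y⟩ _ ⟨x', y'⟩ _ heq
    simp only [Prod.mk.injEq] at heq
    ext
    · show x = x'
      linarith [heq.1]
    · show y = y'
      linarith [heq.2]

/-- the coefficient lists of `y² - (x³ + a x + b)` -/
def wl (a b : ℤ) : List (List ℤ) := [[-b, 0, 1], [-a], [], [-1]]

lemma zr_wl (a b : ℤ) (p : ℚ × ℚ) :
    p ∈ Zr (wl a b) ↔ p.2 ^ 2 = p.1 ^ 3 + a * p.1 + b := by
  unfold Zr wl
  simp only [Set.mem_setOf_eq, List.length_cons, List.length_nil, Finset.sum_range_succ,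
    Finset.sum_range_zero, List.getD_cons_zero, List.getD_cons_succ]
  constructor
  · intro h
    push_cast at h
    linear_combination h
  · intro h
    push_cast
    linear_combination h

/-- four pairs -/
abbrev TT : Type := ((ℤ × ℤ) × (ℤ × ℤ)) × ((ℤ × ℤ) × (ℤ × ℤ))

/-- the search condition for the cubics -/
def Pw (L : List (List ℤ)) (c : ((ℤ × ℤ) × ℕ) × TT) : Prop :=
  L = wl (c.1.1.1 * c.1.1.2 - (c.1.1.1 + c.1.1.2) * (c.1.1.1 + c.1.1.2))
    (c.1.1.1 * c.1.1.2 * (c.1.1.1 + c.1.1.2)) ∧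
  (¬ 2 * (c.1.1.2 - c.1.1.1) * (-2 * c.1.1.1 - c.1.1.2) *
    ((c.1.1.2 - c.1.1.1) - (-2 * c.1.1.1 - c.1.1.2)) = 0 ∧
  Chk (c.1.1.2 - c.1.1.1) (-2 * c.1.1.1 - c.1.1.2) c.1.2 c.2)

/-- the search condition for the quartics -/
def Pq (L : List (List ℤ)) (c : ((ℤ × ℤ) × (ℤ × ℤ)) × (ℕ × TT)) : Prop :=
  L = lst (c.1.1.1 + c.1.1.2) c.1.2.1 c.1.2.2 ∧ c.1.1.1 * c.1.1.2 = c.1.2.2 * c.1.2.1 ∧
  (¬ 2 * c.1.1.1 * c.1.1.2 * (c.1.1.1 - c.1.1.2) = 0 ∧
  Chk c.1.1.1 c.1.1.2 c.2.1 c.2.2)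

/-- the recursively enumerable predicate -/
def PF (L : List (List ℤ)) : Prop := (∃ c, Pw L c) ∨ ∃ c, Pq L c

attribute [local fun_prop] ciadd cisub cimul cineg cicast citoNat cinatAbs cmod

theorem re_PF : REPred PF := by
  refine RE.or (RE.ex (p := Pw) (ComputablePred.to_re ?_)) (RE.ex (p := Pq)
    (ComputablePred.to_re ?_))
  · refine cp_and (RE.cp_eq (by fun_prop) ?_) (cp_and (cp_not (RE.cp_eq (by fun_prop)
      (by fun_prop))) ?_)
    · unfold wl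
      fun_prop
    · apply cp_chk <;> fun_prop
  · refine cp_and (RE.cp_eq (by fun_prop) ?_) (cp_and (RE.cp_eq (by fun_prop) (by fun_prop))
      (cp_and (cp_not (RE.cp_eq (by fun_prop) (by fun_prop))) ?_))
    · unfold lst
      fun_prop
    · apply cp_chk <;> fun_prop

/-- **soundness** -/
theorem PF_sound {L : List (List ℤ)} (h : PF L) : (Zr L).Finite := by
  rcases h with ⟨⟨⟨⟨e1, e2⟩, K⟩, T⟩, hL, hn, hc⟩ | ⟨⟨⟨⟨A, B⟩, q, b⟩, K, T⟩, hL, hq, hn, hc⟩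
  · simp only at hL hn hc
    have hM : e2 - e1 ≠ 0 := fun h' => hn (by rw [h']; ring)
    have hN : -2 * e1 - e2 ≠ 0 := fun h' => hn (by rw [h']; ring)
    have hMN : e2 - e1 ≠ -2 * e1 - e2 := fun h' => hn (by rw [sub_eq_zero.2 h']; ring)
    obtain ⟨s1, s2⟩ := sel_le hM hN hMN hc
    have h1 : ∀ x : ℤ, x ^ 3 + (e1 * e2 - (e1 + e2) * (e1 + e2)) * x + e1 * e2 * (e1 + e2) =
        (x - e1) * (x - e2) * (x - (-e1 - e2)) := by
      intro x
      ring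
    have hD : 4 * (e1 * e2 - (e1 + e2) * (e1 + e2)) ^ 3 + 27 * (e1 * e2 * (e1 + e2)) ^ 2 ≠ 0 := by
      have : 4 * (e1 * e2 - (e1 + e2) * (e1 + e2)) ^ 3 + 27 * (e1 * e2 * (e1 + e2)) ^ 2 =
          -((e2 - e1) * (-2 * e1 - e2) * ((e2 - e1) - (-2 * e1 - e2))) ^ 2 := by
        ring
      rw [this]
      exact neg_ne_zero.2 (pow_ne_zero 2 (mul_ne_zero (mul_ne_zero hM hN) (sub_ne_zero.2 hMN)))
    have h2 := fin_sh (q := 1) hD h1 one_ne_zero (M := e2 - e1) (N := -2 * e1 - e2) (by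
      push_cast; ring) (by push_cast; ring) s1 s2
    refine h2.subset fun p hp => ?_
    rw [hL, zr_wl] at hp
    exact hp
  · simp only at hL hq hn hc
    have hA : A ≠ 0 := fun h' => hn (by rw [h']; ring)
    have hB : B ≠ 0 := fun h' => hn (by rw [h']; ring)
    have hAB : A ≠ B := fun h' => hn (by rw [h']; ring)
    obtain ⟨s1, s2⟩ := sel_le hA hB hAB hc
    have h2 := fin_ab hA hB hAB s1 s2
    have hb : (b : ℚ) ≠ 0 := by
      intro h'
      have hb0 : b = 0 := by exact_mod_cast h'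
      rw [hb0, zero_mul] at hq
      exact mul_ne_zero hA hB hq
    have hq' : (A : ℚ) * B = b * q := by exact_mod_cast congrArg (fun z : ℤ => (z : ℚ)) hq
    have h3 : ∀ p ∈ Zr L, (b * p.1 ^ 2, b * p.1 * p.2) ∈
        {p : ℚ × ℚ | p.2 ^ 2 = p.1 * (p.1 - A) * (p.1 - B)} := by
      intro p hp
      rw [hL, zr_lst] at hp
      simp only [Set.mem_setOf_eq]
      push_cast at hp
      linear_combination (b : ℚ) ^ 2 * p.1 ^ 2 * hp - (b : ℚ) * p.1 ^ 2 * hq'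
    -- finite fibres
    have h4 : (Zr L) ⊆ ⋃ z ∈ {p : ℚ × ℚ | p.2 ^ 2 = p.1 * (p.1 - A) * (p.1 - B)},
        {p : ℚ × ℚ | b * p.1 ^ 2 = z.1 ∧ p.2 ^ 2 = b * p.1 ^ 4 - (A + B) * p.1 ^ 2 + q} := by
      intro p hp
      rw [Set.mem_iUnion₂]
      refine ⟨_, h3 p hp, rfl, ?_⟩
      rw [hL, zr_lst] at hp
      push_cast at hp
      exact hp
    refine Set.Finite.subset (Set.Finite.biUnion h2 fun z _ => ?_) h4
    have h5 : ∀ c : ℚ, {x : ℚ | x ^ 2 = c}.Finite := by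
      intro c
      by_cases hc' : ∃ r : ℚ, r ^ 2 = c
      · obtain ⟨r, rfl⟩ := hc'
        refine (Set.toFinite {r, -r}).subset fun x hx => ?_
        rcases sq_eq_sq_iff_eq_or_eq_neg.1 hx with h' | h'
        · exact Or.inl h'
        · exact Or.inr h'
      · convert Set.finite_empty
        rw [Set.eq_empty_iff_forall_notMem]
        exact fun x hx => hc' ⟨x, hx⟩
    have h6 : ({p : ℚ × ℚ | b * p.1 ^ 2 = z.1 ∧
        p.2 ^ 2 = b * p.1 ^ 4 - (A + B) * p.1 ^ 2 + q}) ⊆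
        ⋃ x ∈ {x : ℚ | x ^ 2 = z.1 / b}, (fun y => (x, y)) ''
          {y : ℚ | y ^ 2 = b * x ^ 4 - (A + B) * x ^ 2 + q} := by
      rintro ⟨x, y⟩ ⟨hx, hy⟩
      rw [Set.mem_iUnion₂]
      refine ⟨x, ?_, y, hy, rfl⟩
      show x ^ 2 = z.1 / b
      rw [eq_div_iff hb, ← hx]
      ring
    exact Set.Finite.subset (Set.Finite.biUnion (h5 _) fun x _ => (h5 _).image _) h6

/-- **completeness, cubics** -/
theorem PF_cubic {a b : ℤ} (hD : 4 * a ^ 3 + 27 * b ^ 2 ≠ 0) {e1 e2 e3 : ℤ}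
    (h : ∀ x : ℤ, x ^ 3 + a * x + b = (x - e1) * (x - e2) * (x - e3))
    (hS : (Sel (e2 - e1) (e3 - e1)).Finite) (h4 : (Sel (e2 - e1) (e3 - e1)).ncard ≤ 4) :
    PF (wl a b) := by
  obtain ⟨d12, d13, d23⟩ := Pool.Agent.W402.FK.dist a b e1 e2 e3 hD h
  obtain ⟨s1, s2, s3⟩ := Pool.Agent.W402.FK.coef a b e1 e2 e3 h
  obtain ⟨K, T, hc⟩ := chk_of (sub_ne_zero.2 (Ne.symm d12)) (sub_ne_zero.2 (Ne.symm d13))
    (fun h' => d23 (by linarith)) hS h4
  have e3' : e3 = -e1 - e2 := by linarith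
  have e4 : e3 - e1 = -2 * e1 - e2 := by rw [e3']; ring
  rw [e4] at hc
  refine Or.inl ⟨(((e1, e2), K), T), ?_, ?_, hc⟩
  · show wl a b = wl (e1 * e2 - (e1 + e2) * (e1 + e2)) (e1 * e2 * (e1 + e2))
    rw [s2, s3, e3']
    congr 1 <;> ring
  · simp only
    rw [← e4]
    refine mul_ne_zero (mul_ne_zero (mul_ne_zero two_ne_zero (sub_ne_zero.2 (Ne.symm d12)))
      (sub_ne_zero.2 (Ne.symm d13))) (sub_ne_zero.2 fun h' => d23 (by linarith))

/-- **completeness, quartics** -/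
theorem PF_quartic {A B b : ℤ} (hA : A ≠ 0) (hB : B ≠ 0) (hAB : A ≠ B) (hb : b ∣ A * B)
    (hS : (Sel A B).Finite) (h4 : (Sel A B).ncard ≤ 4) : PF (lst (A + B) (A * B / b) b) := by
  obtain ⟨K, T, hc⟩ := chk_of hA hB hAB hS h4
  refine Or.inr ⟨(((A, B), (A * B / b, b)), (K, T)), rfl, (Int.mul_ediv_cancel' hb).symm, ?_, hc⟩
  exact mul_ne_zero (mul_ne_zero (mul_ne_zero two_ne_zero hA) hB) (sub_ne_zero.2 hAB)

end Pool.Agent.Q323.PA
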